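import Mathlib
import Pool.Agent.Results.MP_ab3ecb_nt.ApproximationOnTwists
import Pool.Agent.Results.MP_ab3ecb_nt.TwistsNearBranchPoint
import Pool.Agent.Results.MP_ab3ecb_nt.SuperellipticTwists
import Pool.Agent.V11109.DEC.Law

/-!
# The Brauer-Manin sets of almost all twists by the terms of sparse sequences

Let `p > 1` be a real number. There is a set `A₀` of real numbers of Hausdorff dimension smaller than
one such that the following holds for all `α > 0` outside `A₀`, with `t_j = ⌊α j ^ p⌋` (there are about
`X ^ (1 / p)` terms up to `X`), and every nonzero integer `e`, for all `j ≤ N` for which `d = e t_j` is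
squarefree, with at most `C N (log N) ^ (-δ)` exceptions.

1. The adelic points of the curve `d y² = ∏ ℓ_k (x, w)`, `ℓ_k` at least six linear forms in general
   position, which are orthogonal to the classes `(ℓ_k / ℓ_l, e)` of the Brauer group, are those which
   have the 2-covering type of one rational Weierstrass point at all places (`δ = 1 / 5`).
2. For mixed factors `F_k`, at least four of them of odd degree and one of them linear, the adelic points
   of `d y² = ∏ F_k (x, w)` orthogonal to the classes of the starting result `TwistsNearBranchPoint`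
   have at all places the type of one rational branch point and reduce to it modulo the large primes
   dividing `d`.
3. For irreducible factors `F_k` of even degrees no adelic point of a curve `d y ^ n = ∏ F_k (x, w)`, `n`
   even and a divisor of the total degree, is orthogonal to the classes `(F_k, e)`.

At least a third of the `t_j` are squarefree.
-/

set_option autoImplicit false

namespace Pool.Agent.Results.MP_ab3ecb_nt.BranchPointsAlongSequences

open Finset Polynomial

open Pool.Agent.V11109.DEC (term Rare ManySquarefree)

/-- `d` is squarefree and the adelic points of `d y² = ∏ (α_k x + β_k w)` orthogonal to the classes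
`(ℓ_k / ℓ_l, e)` are not exactly those with the 2-covering type of one rational Weierstrass point -/
def BadLinear {n : ℕ} (a b : Fin n → ℤ) (d : ℤ) : Prop :=
  Squarefree d ∧ ¬ ∀ P : ApproximationOnTwists.AdelicPoint a b d,
    ApproximationOnTwists.Orthogonal P ↔ ∃ Q : ApproximationOnTwists.Point a b d ℚ,
      Q.y = 0 ∧ ApproximationOnTwists.SameEverywhere P Q

/-- `d` is squarefree and some adelic point of `d y² = ∏ F_k (x, w)` orthogonal to the classes does not
have the type of one rational branch point `P_i` at all places or does not reduce to `P_i` modulo a prime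
`p > z` dividing `d` -/
def BadMixed {n : ℕ} (f : Fin n → ℤ[X]) (z : ℕ) (d : ℤ) : Prop :=
  Squarefree d ∧ ¬ ∀ P : Pool.Agent.W313.BMX.AdelicPoint f d,
    TwistsNearBranchPoint.Orthogonal P → ∃ i, (f i).natDegree = 1 ∧
      TwistsNearBranchPoint.TypeOf P i ∧ TwistsNearBranchPoint.ReducesTo z P i

/-- `d` is squarefree and for some even divisor `m` of the total degree some adelic point of
`d y ^ m = ∏ F_k (x, w)` is orthogonal to the classes `(F_k, e)` -/
def BadCover {n : ℕ} (f : Fin n → ℤ[X]) (d : ℤ) : Prop :=
  Squarefree d ∧ ∃ m : ℕ, Even m ∧ m ∣ ∑ k, (f k).natDegree ∧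
    ∃ P : SuperellipticTwists.AdelicCoverPoint f d m, SuperellipticTwists.OrthogonalCover P

/-- the countable family of the properties -/
def Ind : Type := ((Σ n : ℕ, (Fin n → ℤ) × (Fin n → ℤ)) ⊕ (Σ n : ℕ, (Fin n → ℤ[X]) × ℕ)) ⊕
  (Σ n : ℕ, Fin n → ℤ[X])

/-- the properties -/
def prop : Ind → ℤ → Prop
  | .inl (.inl v) => BadLinear v.2.1 v.2.2
  | .inl (.inr v) => BadMixed v.2.1 v.2.2
  | .inr v => BadCover v.2

/-- **Main result.** For every real `p > 1` there is a set `A₀` of real numbers of Hausdorff dimension
smaller than one such that: at least `N / 3` of the `t_j`, `j ≤ N`, are squarefree (`α > 0` outside `A₀`,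
`N` large); for all systems of an even number `n ≥ 6` of linear forms in general position the
integers in `BadLinear` are rare along the sequences `e t_j` with the exponent `1 / 5`; for all systems of mixed
factors with linear factors, in general position, there are `z` and `δ > 0` such that those in
`BadMixed` are rare with the exponent `δ`; for all irreducible, pairwise non-associated factors of even degrees
there is `δ > 0` such that those in `BadCover` are rare with the exponent `δ`. -/
theorem result (p : ℝ) (hp : 1 < p) : ∃ A₀ : Set ℝ, dimH A₀ < 1 ∧ ManySquarefree p A₀ ∧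
    (∀ (n : ℕ) (a b : Fin n → ℤ), 6 ≤ n → Even n → ApproximationOnTwists.Generic a b →
      Rare p A₀ (1 / 5) (BadLinear a b)) ∧
    (∀ (n : ℕ) (f : Fin n → ℤ[X]), TwistsNearBranchPoint.Factors f →
      TwistsNearBranchPoint.General f → (TwistsNearBranchPoint.Ln f).Nonempty →
      ∃ z : ℕ, ∃ δ : ℝ, 0 < δ ∧ Rare p A₀ δ (BadMixed f z)) ∧
    ∀ (n : ℕ) (f : Fin n → ℤ[X]), Pool.Agent.W313.BMX.Admissible f →
      ∃ δ : ℝ, 0 < δ ∧ Rare p A₀ δ (BadCover f) := by
  have hcp := Pool.Agent.V11109.TWI.countable_poly
  have hInd : Countable Ind := by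
    unfold Ind
    infer_instance
  obtain ⟨A₀, hA₀, hsq, h⟩ := Pool.Agent.V11109.DEC.rare p hp prop
  refine ⟨A₀, hA₀, hsq, fun n a b hn hev hg => ?_, fun n f hf hg hL => ?_, fun n f hf => ?_⟩
  · obtain ⟨⟨C, hC⟩, -⟩ := ApproximationOnTwists.result (Fin n) a b (by simpa using hn)
      (by simpa using hev) hg
    exact h (.inl (.inl ⟨n, a, b⟩)) C (1 / 5) (by norm_num) hC
  · obtain ⟨z, δ, hδ, C, hC⟩ := TwistsNearBranchPoint.result (Fin n) f hf hg hL
    exact ⟨z, δ, hδ, h (.inl (.inr ⟨n, f, z⟩)) C δ hδ.le hC⟩
  · obtain ⟨⟨δ, hδ, C, hC⟩, -⟩ := SuperellipticTwists.result.1 (Fin n) f hf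
    exact ⟨δ, hδ, h (.inr ⟨n, f⟩) C δ hδ.le hC⟩

end Pool.Agent.Results.MP_ab3ecb_nt.BranchPointsAlongSequences
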