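import Pool.Agent.Results.MP_ab3ecb_nt.ClosuresInLinearSystems
import Pool.Agent.Results.MP_ab3ecb_nt.ClosuresOverExtensions
import Pool.Agent.H107.HypNear
import Pool.Agent.H107.NFCount

/-!
# Closures of the Mordell-Weil groups and the members of linear systems close to almost every point

`E : y² = x³ + a x + b` is an elliptic curve over a number field `K` (any rank), and `X` is a closed subset of
`E ^ r × ℙ ^ n` over `K`, a family of closed subsets `X_y ⊆ E ^ r` with parameter space `ℙ ^ n`. Let `τ` be an embedding of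
`K` in `𝕜 = ℝ` or `ℂ`.

1. Suppose that `X` contains no `{V} × ℙ ^ n` (for example, the `X_y` are all the curves in a base point free linear system
on `E ^ 2`, or all the intersections of `r - 1` members of such systems on `E ^ r`). There is a subset of `𝕜 ^ n` of Hausdorff
dimension at most `n - 1` (at most `2 (n - 1)` for `𝕜 = ℂ`), so of measure zero, such that for all `z` outside of it, all
`w > 0` (arbitrarily small) and ALL finite sets `S` of finite places of `K`: for all the points `y` in `K ^ n` of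
sufficiently large height `H(y)` with `‖τ(y) - z‖ ≤ H(y) ^ (-w)`, the closure of the group `E(K) ^ r` in the product of the
`E(K_v) ^ r` over all finite places `v` outside of `S` does not meet the product of the `X_y(K_v)`.

2. Suppose that for all `2 ≤ m ≤ M` and all complex points `S` of `E ^ r` the `y` such that `S` is a sum of `m` points of
`X_y` lie on a hypersurface of degree `k`. Then the same holds over ALL extensions `F` of `K` of degree between `2` and `M`
at once.

The input are the bounds `O(B ^ ε)` for the number of the hypersurfaces which contain the exceptional points of height at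
most `B` (starting results `ClosuresInLinearSystems`, `ClosuresOverExtensions`) and the covering theorem for zero sets of
polynomials of helper264.
-/

set_option autoImplicit false

namespace Pool.Agent.Results.MP_ab3ecb_nt.ClosuresNearPoints

open MvPolynomial NumberField IsDedekindDomain Pool.Agent.TH954
open Pool.Agent.Results.MP_ab3ecb_nt.ClosuresInLinearSystems (OnE MultiHomog Fibre)
open Pool.Agent.Results.MP_ab3ecb_nt.ClosuresOverExtensions (IsSum curve)

open scoped LinearAlgebra.Projectivization ENNReal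

/-- **Theorem.** (1) `ClosuresInLinearSystems.Unobstructed a b G S` is the set of the points `y` such that some point of the
product of the `X_y(K_v)`, `v` outside `S`, lies in the closure of `E(K) ^ r`. (2)
`ClosuresOverExtensions.Unobstructed a b G T M` is the set of the points `y` such that, for some extension `F` of `K` of
degree between `2` and `M`, some point of the product of the `X_y(F_w)`, `w` not above `T`, lies in the closure of
`E(F) ^ r`. -/
theorem result (K : Type) [Field K] [NumberField K] (a b : 𝓞 K)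
    (hE : 4 * a ^ 3 + 27 * b ^ 2 ≠ 0) (r n q : ℕ)
    (G : Fin q → MvPolynomial ((Fin r × Fin 3) ⊕ Fin (n + 1)) (𝓞 K))
    (d : Fin q → Fin r → ℕ) (deg : Fin q → ℕ) (hG : ∀ e, MultiHomog (G e) (d e) (deg e))
    (σ : K →+* ℂ) (𝕜 : Type) [RCLike 𝕜] (τ : K →+* 𝕜) :
    ((∀ V : Fin r → Fin 3 → ℂ, (∀ i, OnE (σ a) (σ b) (V i)) →
        Fibre (σ.comp (algebraMap (𝓞 K) K)) G V ≠ Set.univ) →
      ∃ E : Set (Fin n → 𝕜), dimH E ≤ ((Module.finrank ℝ 𝕜 * (n - 1) : ℕ) : ℝ≥0∞) ∧ ∀ z ∉ E,
        ∀ S : Set (HeightOneSpectrum (𝓞 K)), S.Finite → ∀ w : ℝ, 0 < w →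
        ∃ T₀ : ℝ, ∀ y : Fin n → K, T₀ ≤ (Pool.Agent.H107.Hyp.pt y).mulHeight →
          ‖(fun i => τ (y i)) - z‖ ≤ (Pool.Agent.H107.Hyp.pt y).mulHeight ^ (-w) →
          Pool.Agent.H107.Hyp.pt y ∉ Pool.Agent.Results.MP_ab3ecb_nt.ClosuresInLinearSystems.Unobstructed a b G S) ∧
    (∀ M k : ℕ, 1 ≤ k → (∀ m, 2 ≤ m → m ≤ M → ∀ S : Fin r → (curve (σ a) (σ b)).toAffine.Point,
        ∃ g : MvPolynomial (Fin (n + 1)) ℂ, g ≠ 0 ∧ g.IsHomogeneous k ∧
          ∀ y : ℙ ℂ (Fin (n + 1) → ℂ), IsSum σ a b G m S y.rep → eval y.rep g = 0) →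
      ∃ E : Set (Fin n → 𝕜), dimH E ≤ ((Module.finrank ℝ 𝕜 * (n - 1) : ℕ) : ℝ≥0∞) ∧ ∀ z ∉ E,
        ∀ T : Finset ℕ, (∀ p ∈ T, p.Prime) → ∀ w : ℝ, 0 < w →
        ∃ T₀ : ℝ, ∀ y : Fin n → K, T₀ ≤ (Pool.Agent.H107.Hyp.pt y).mulHeight →
          ‖(fun i => τ (y i)) - z‖ ≤ (Pool.Agent.H107.Hyp.pt y).mulHeight ^ (-w) →
          Pool.Agent.H107.Hyp.pt y ∉ Pool.Agent.Results.MP_ab3ecb_nt.ClosuresOverExtensions.Unobstructed a b G T M) := by
  refine ⟨fun hX => ?_, fun M k hk hX => ?_⟩
  · have := Pool.Agent.H107.NF.countable_hos K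
    obtain ⟨E, h1, h2⟩ := Pool.Agent.H107.Hyp.near_hyp τ n (Finset.univ.sup deg)
      (J := Finset (HeightOneSpectrum (𝓞 K)))
      (fun S => Pool.Agent.Results.MP_ab3ecb_nt.ClosuresInLinearSystems.Unobstructed a b G (S : Set (HeightOneSpectrum (𝓞 K))))
      (fun S ε hε => Pool.Agent.Results.MP_ab3ecb_nt.ClosuresInLinearSystems.result K a b hE r n q G d deg hG
        (Finset.univ.sup deg) (fun e => Finset.le_sup (Finset.mem_univ e)) σ hX (S : Set (HeightOneSpectrum (𝓞 K)))
        (Finset.finite_toSet S) ε hε)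
    refine ⟨E, h1, fun z hz S hS w hw => ?_⟩
    have h3 := h2 z hz hS.toFinset w hw
    rw [Set.Finite.coe_toFinset] at h3
    exact h3
  · obtain ⟨E, h1, h2⟩ := Pool.Agent.H107.Hyp.near_hyp τ n k (J := {T : Finset ℕ // ∀ p ∈ T, p.Prime})
      (fun T => Pool.Agent.Results.MP_ab3ecb_nt.ClosuresOverExtensions.Unobstructed a b G T.1 M)
      (fun T ε hε => Pool.Agent.Results.MP_ab3ecb_nt.ClosuresOverExtensions.result K a b hE r n q G d deg hG σ M k hk hX
        T.1 T.2 ε hε)
    exact ⟨E, h1, fun z hz T hT w hw => h2 z hz ⟨T, hT⟩ w hw⟩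

end Pool.Agent.Results.MP_ab3ecb_nt.ClosuresNearPoints
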